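import Mathlib
import Pool.Agent.H28.Joints

namespace Pool.Agent.Results.MP_d9ed39_co.Subquadratic

open Pool.Agent.H28.Joints

/-- For n at least four and every exponent saving below one third, L lines of a finite simple
matroid have fewer than L to the power two minus the saving n-dimensional joints, for large L. -/
theorem result :
    ∀ n : ℕ, 4 ≤ n → ∀ ε : ℝ, ε < 1 / 3 → ∃ L₀ : ℕ, ∀ L : ℕ, L₀ ≤ L →
      ∀ (α : Type) (M : Matroid α), M.E.Finite →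
        (∀ e ∈ M.E, ∀ f ∈ M.E, M.Indep {e, f}) →
        ∀ 𝔏 : Finset (Set α), (∀ l ∈ 𝔏, M.IsFlat l ∧ M.eRk l = 2) → 𝔏.card = L →
          (({x ∈ M.E | ∃ l : Fin n → Set α, (∀ i, l i ∈ 𝔏 ∧ x ∈ l i) ∧
              (n : ℕ∞) + 1 ≤ M.eRk (⋃ i, l i)}.ncard : ℕ) : ℝ) < (L : ℝ) ^ (2 - ε) := by
  intro n hn ε hε
  have hδ : 0 < 1 - 3 * ε := by linarith
  have hlim : Filter.Tendsto (fun L : ℕ => (L : ℝ) ^ (1 - 3 * ε)) Filter.atTop Filter.atTop :=
    (tendsto_rpow_atTop hδ).comp tendsto_natCast_atTop_atTop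
  obtain ⟨L₀, hL₀⟩ := Filter.eventually_atTop.1 (hlim.eventually_gt_atTop 2)
  refine ⟨max L₀ 1, fun L hL α M hfin hs 𝔏 h𝔏 hcard => ?_⟩
  have hL1 : 1 ≤ L := le_trans (le_max_right _ _) hL
  have hL2 := hL₀ L (le_trans (le_max_left _ _) hL)
  set S := {x ∈ M.E | ∃ l : Fin n → Set α, (∀ i, l i ∈ 𝔏 ∧ x ∈ l i) ∧
              (n : ℕ∞) + 1 ≤ M.eRk (⋃ i, l i)} with hS
  have hSfin : S.Finite := hfin.subset (fun x hx => hx.1)
  have hb := joints_bound hn hs 𝔏 h𝔏 hSfin.toFinset (fun p hp => by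
    rw [Set.Finite.mem_toFinset] at hp
    exact hp.2)
  rw [hcard, ← Set.ncard_eq_toFinset_card S hSfin] at hb
  have hb' : (S.ncard : ℝ) ^ 3 ≤ 2 * (L : ℝ) ^ 5 := by exact_mod_cast hb
  have hLpos : (0 : ℝ) < L := by exact_mod_cast hL1
  have hcube : ((L : ℝ) ^ (2 - ε)) ^ 3 = (L : ℝ) ^ (1 - 3 * ε) * (L : ℝ) ^ 5 := by
    rw [← Real.rpow_natCast, ← Real.rpow_mul hLpos.le, ← Real.rpow_natCast,
      ← Real.rpow_add hLpos]
    congr 1
    push_cast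
    ring
  apply lt_of_pow_lt_pow_left₀ 3 (Real.rpow_nonneg hLpos.le _)
  rw [hcube]
  have : (0 : ℝ) < (L : ℝ) ^ 5 := by positivity
  nlinarith

end Pool.Agent.Results.MP_d9ed39_co.Subquadratic
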